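import Pool.Agent.helper49.M4.Spec

set_option autoImplicit false

namespace Pool.Agent.M4F

open Real

theorem BRA : BRA_stmt := by
  intro lam th a b hlam hth hth2 hS hb hbp ha him hcr
  have hpi := Real.pi_pos
  refine ⟨by linarith, ?_⟩
  by_contra hc
  push Not at hc
  have hbth : th < b := by
    by_contra h
    push Not at h
    linarith
  have s1 : 0 < sin (b - th) := Real.sin_pos_of_pos_of_lt_pi (by linarith) (by linarith)
  have sl : 0 < sinh lam := Real.sinh_pos_iff.2 hlam
  have s2 : 0 < sin th := Real.sin_pos_of_pos_of_lt_pi hth (by linarith)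
  have c2 : 0 < cos th := Real.cos_pos_of_mem_Ioo ⟨by linarith, by linarith⟩
  have hb1 : b - th < π / 2 := by
    by_contra h
    push Not at h
    have h1 : cos (b - th) ≤ 0 := Real.cos_nonpos_of_pi_div_two_le_of_le h (by linarith)
    have h2 : sinh (a - lam) < 0 := Real.sinh_neg_iff.2 (by linarith)
    have h3 : 0 < sinh (2 * lam) := Real.sinh_pos_iff.2 (by linarith)
    have h4 : 0 < sin (2 * th) := Real.sin_pos_of_pos_of_lt_pi (by linarith) (by linarith)
    have h5 := Real.cosh_pos (a - lam)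
    unfold imF at him
    have h6 := mul_pos (mul_pos h4 h5) s1
    have h7 := mul_nonneg (mul_nonneg h3.le (neg_nonneg.2 h2.le)) (neg_nonneg.2 h1)
    nlinarith
  obtain ⟨p, hp⟩ : ∃ p : ℝ, p = 2 * b - th - π := ⟨_, rfl⟩
  have hp0 : 0 ≤ p := by linarith
  have hp1 : p ≤ th := by linarith
  have hth3 : th < π / 3 := by
    by_contra h
    push Not at h
    linarith
  have hc3 : 1 / 2 < cos th := by
    have := Real.cos_lt_cos_of_nonneg_of_le_pi hth.le (by linarith : π / 3 ≤ π) hth3
    rwa [Real.cos_pi_div_three] at this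
  -- the square root
  have hcs := Real.sin_sq_add_cos_sq th
  have hch := Real.cosh_sq lam
  obtain ⟨q, hq⟩ : ∃ q : ℝ, q = √(rh lam th) := ⟨_, rfl⟩
  have hrh : 0 ≤ rh lam th := by unfold rh; positivity
  have hq0 : 0 ≤ q := by rw [hq]; exact Real.sqrt_nonneg _
  have hq2 : q ^ 2 = sinh lam ^ 2 + cos th ^ 2 := by
    rw [hq, Real.sq_sqrt hrh]; rfl
  have hqc : cos th ≤ q := by
    apply abs_le_of_sq_le_sq' _ hq0 |>.2
    rw [hq2]
    nlinarith [sq_nonneg (sinh lam)]
  have hq1 : q < 1 := by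
    have : sinh lam ^ 2 < sin th ^ 2 := pow_lt_pow_left₀ hS sl.le two_ne_zero
    nlinarith
  have hX : q ≤ cosh lam * cosh (lam - 2 * a) - sin th * sinh (lam - 2 * a) := by
    obtain ⟨X, hX⟩ : ∃ X : ℝ, X = lam - 2 * a := ⟨_, rfl⟩
    rw [← hX]
    have hX0 : 0 < X := by linarith
    have e1 : sinh X < cosh X := Real.sinh_lt_cosh X
    have e2 : 0 < sinh X := Real.sinh_pos_iff.2 hX0
    have e3 : 1 ≤ cosh lam := Real.one_le_cosh lam
    have e4 : sin th ≤ 1 := Real.sin_le_one th
    have e5 : 0 ≤ cosh lam * cosh X - sin th * sinh X := by nlinarith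
    apply abs_le_of_sq_le_sq' _ e5 |>.2
    have e6 := Real.cosh_sq X
    have e7 : (cosh lam * cosh X - sin th * sinh X) ^ 2 =
        (cosh lam ^ 2 - sin th ^ 2) + (cosh lam * sinh X - sin th * cosh X) ^ 2 := by
      have : (cosh lam * cosh X - sin th * sinh X) ^ 2 -
        (cosh lam * sinh X - sin th * cosh X) ^ 2 =
        (cosh lam ^ 2 - sin th ^ 2) * (cosh X ^ 2 - sinh X ^ 2) := by ring
      rw [e6] at this
      linarith
    rw [e7, hq2]
    nlinarith [sq_nonneg (cosh lam * sinh X - sin th * cosh X)]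
  -- the creation inequality
  unfold CrI st at hcr
  have epsi : 2 * b - th = p + π := by linarith
  rw [epsi, Real.sin_add_pi, Real.cos_add_pi] at hcr
  -- concavity
  obtain ⟨t, ht⟩ : ∃ t : ℝ, t = p / th := ⟨_, rfl⟩
  have ht0 : 0 ≤ t := by rw [ht]; positivity
  have ht1 : t ≤ 1 := by rw [ht, div_le_one hth]; exact hp1
  have hpt : (1 - t) • (0 : ℝ) + t • th = p := by
    rw [ht, smul_eq_mul, smul_eq_mul, mul_zero, zero_add]
    field_simp
  have k1 := strictConcaveOn_cos_Icc.concaveOn.2 (x := 0) ⟨by linarith, by linarith⟩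
    (y := th) ⟨by linarith, by linarith⟩ (by linarith : 0 ≤ 1 - t) ht0 (by ring)
  have k2 := strictConcaveOn_sin_Icc.concaveOn.2 (x := 0) ⟨by linarith, by linarith⟩
    (y := th) ⟨by linarith, by linarith⟩ (by linarith : 0 ≤ 1 - t) ht0 (by ring)
  rw [hpt] at k1 k2
  simp only [smul_eq_mul, Real.cos_zero, Real.sin_zero, mul_one, mul_zero, zero_add] at k1 k2
  have k3 := mul_le_mul_of_nonneg_left k1 c2.le
  have k4 := mul_le_mul_of_nonneg_left k2 sl.le
  have m1 : sinh lam ^ 2 + sin th ^ 2 - cos th < q := by nlinarith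
  have m2 : sinh lam ^ 2 + sin th ^ 2 - cos th ^ 2 - sinh lam * sin th < q := by
    nlinarith
  have m3 := mul_le_mul_of_nonneg_left m1.le (by linarith : 0 ≤ 1 - t)
  have m4 := mul_le_mul_of_nonneg_left m2.le ht0
  nlinarith

end Pool.Agent.M4F
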