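import Pool.Agent.helper49.M4.Spec

set_option autoImplicit false

namespace Pool.Agent.M4F

open Real

theorem th_sub (x y : ℝ) : tanh y - tanh x = sinh (y - x) / (cosh x * cosh y) := by
  rw [Real.tanh_eq_sinh_div_cosh, Real.tanh_eq_sinh_div_cosh, Real.sinh_sub]
  have := Real.cosh_pos x
  have := Real.cosh_pos y
  field_simp

theorem th_lt {x y : ℝ} (h : x < y) : tanh x < tanh y := by
  have h1 := th_sub x y
  have h2 : 0 < sinh (y - x) / (cosh x * cosh y) := by
    apply div_pos (Real.sinh_pos_iff.2 (by linarith))
    exact mul_pos (Real.cosh_pos _) (Real.cosh_pos _)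
  linarith

theorem th_le {x y : ℝ} (h : x ≤ y) : tanh x ≤ tanh y := by
  rcases h.lt_or_eq with h | h
  · exact (th_lt h).le
  · rw [h]

theorem th_pos {x : ℝ} (h : 0 < x) : 0 < tanh x := by
  have := th_lt h
  rwa [Real.tanh_zero] at this

theorem th_add (x y : ℝ) : tanh (x + y) * (1 + tanh x * tanh y) = tanh x + tanh y := by
  rw [Real.tanh_eq_sinh_div_cosh, Real.tanh_eq_sinh_div_cosh, Real.tanh_eq_sinh_div_cosh]
  have h1 := Real.cosh_pos x
  have h2 := Real.cosh_pos y
  have h3 := Real.cosh_pos (x + y)
  rw [div_add_div _ _ h1.ne' h2.ne', Real.sinh_add, Real.cosh_add]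
  rw [Real.cosh_add] at h3
  have h4 : cosh x * cosh y ≠ 0 := (mul_pos h1 h2).ne'
  have h5 : 1 + sinh x / cosh x * (sinh y / cosh y) =
      (cosh x * cosh y + sinh x * sinh y) / (cosh x * cosh y) := by
    field_simp
  rw [h5, div_mul_div_cancel₀ h3.ne']

/-- subadditivity of tanh on positive reals -/
theorem th_add_lt {x y : ℝ} (hx : 0 < x) (hy : 0 < y) : tanh (x + y) < tanh x + tanh y := by
  have h := th_add x y
  have h1 := th_pos hx
  have h2 := th_pos hy
  have h3 := th_pos (add_pos hx hy)
  have h4 : 0 < tanh (x + y) * (tanh x * tanh y) := by positivity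
  nlinarith

theorem tn_add {x y : ℝ} (hx : 0 < x) (hy : 0 < y) (hxy : x + y < π / 2) :
    tan x + tan y < tan (x + y) := by
  have hpi := Real.pi_pos
  have c1 : 0 < cos x := Real.cos_pos_of_mem_Ioo ⟨by linarith, by linarith⟩
  have c2 : 0 < cos y := Real.cos_pos_of_mem_Ioo ⟨by linarith, by linarith⟩
  have c3 : 0 < cos (x + y) := Real.cos_pos_of_mem_Ioo ⟨by linarith, by linarith⟩
  have s1 : 0 < sin x := Real.sin_pos_of_pos_of_lt_pi hx (by linarith)
  have s2 : 0 < sin y := Real.sin_pos_of_pos_of_lt_pi hy (by linarith)
  have s3 : 0 < sin (x + y) := Real.sin_pos_of_pos_of_lt_pi (by linarith) (by linarith)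
  rw [Real.tan_eq_sin_div_cos, Real.tan_eq_sin_div_cos, Real.tan_eq_sin_div_cos,
    div_add_div _ _ c1.ne' c2.ne', div_lt_div_iff₀ (mul_pos c1 c2) c3]
  have e1 : sin x * cos y + cos x * sin y = sin (x + y) := (Real.sin_add x y).symm
  have e2 : cos (x + y) = cos x * cos y - sin x * sin y := Real.cos_add x y
  rw [e1]
  apply mul_lt_mul_of_pos_left _ s3
  have := mul_pos s1 s2
  linarith

/-- the sign of `reF`, as an inequality between `tanh` and `tan` -/
theorem ref_iff {lam th a b : ℝ} (_hlam : 0 < lam) (hth : 0 < th) (hth2 : th < π / 2)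
    (hb0 : -(π / 2) < b) (hb : b < π / 2) :
    (0 ≤ reF lam th a b ↔ tanh a * tan th ≤ tan b * tanh lam) ∧
    (reF lam th a b ≤ 0 ↔ tan b * tanh lam ≤ tanh a * tan th) := by
  have hpi := Real.pi_pos
  have c1 : 0 < cos b := Real.cos_pos_of_mem_Ioo ⟨by linarith, by linarith⟩
  have c2 : 0 < cos th := Real.cos_pos_of_mem_Ioo ⟨by linarith, by linarith⟩
  have h1 := Real.cosh_pos a
  have h2 := Real.cosh_pos lam
  have key : reF lam th a b =
      (cosh a * cosh lam * (cos b * cos th)) * (tan b * tanh lam - tanh a * tan th) := by
    rw [Real.tan_eq_sin_div_cos, Real.tan_eq_sin_div_cos, Real.tanh_eq_sinh_div_cosh,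
      Real.tanh_eq_sinh_div_cosh]
    unfold reF
    field_simp
  have hp : 0 < cosh a * cosh lam * (cos b * cos th) := by positivity
  rw [key]
  constructor
  · constructor
    · intro h
      have := (mul_nonneg_iff_of_pos_left hp).1 h
      linarith
    · intro h
      exact mul_nonneg hp.le (by linarith)
  · constructor
    · intro h
      by_contra hc
      push Not at hc
      have := mul_pos hp (show 0 < tan b * tanh lam - tanh a * tan th by linarith)
      linarith
    · intro h
      have := mul_nonneg hp.le (show 0 ≤ -(tan b * tanh lam - tanh a * tan th) by linarith)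
      nlinarith

theorem FRM : FRM_stmt := by
  intro lam th a b hlam hth hth2 hb hbp hF hF' hne
  have hpi := Real.pi_pos
  have Tl := th_pos hlam
  have Tt : 0 < tan th := Real.tan_pos_of_pos_of_lt_pi_div_two hth hth2
  rcases lt_trichotomy (b + th) (π / 2) with h | h | h
  · -- case 3
    exfalso
    have hbb : b < π / 2 := by linarith
    have e1 := (ref_iff (a := a) hlam hth hth2 (by linarith : -(π / 2) < b) hbb).1.1 hF
    have e2 := (ref_iff (a := a + lam) hlam hth hth2 (by linarith : -(π / 2) < b + th) h).2.1 hF'
    have e3 := tn_add hb hth h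
    have tb : 0 < tan b := Real.tan_pos_of_pos_of_lt_pi_div_two hb hbb
    rcases le_or_gt a 0 with ha | ha
    · have e4 : tanh (a + lam) ≤ tanh lam := th_le (by linarith)
      have e5 := mul_le_mul_of_nonneg_right e4 Tt.le
      have e6 := mul_lt_mul_of_pos_right e3 Tl
      have e7 := mul_pos tb Tl
      nlinarith
    · have e4 := th_add_lt ha hlam
      have e5 := mul_lt_mul_of_pos_right e4 Tt
      have e6 := mul_lt_mul_of_pos_right e3 Tl
      nlinarith
  · exfalso
    unfold reF at hF'
    rw [h] at hF'
    rw [Real.sin_pi_div_two, Real.cos_pi_div_two] at hF'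
    have c2 : 0 < cos th := Real.cos_pos_of_mem_Ioo ⟨by linarith, by linarith⟩
    have h1 := Real.cosh_pos (a + lam)
    have h2 := Real.sinh_pos_iff.2 hlam
    have := mul_pos h1 (mul_pos h2 c2)
    nlinarith
  · rcases lt_or_ge (b + th) π with h3 | h3
    · -- case 2
      refine ⟨?_, h, h3⟩
      by_contra hc
      push Not at hc
      unfold reF at hF'
      have c2 : 0 < cos th := Real.cos_pos_of_mem_Ioo ⟨by linarith, by linarith⟩
      have s2 : 0 < sin th := Real.sin_pos_of_pos_of_lt_pi hth (by linarith)
      have h1 := Real.cosh_pos (a + lam)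
      have h2 := Real.sinh_pos_iff.2 hlam
      have h4 : 0 ≤ sinh (a + lam) := Real.sinh_nonneg_iff.2 hc
      have h5 : cos (b + th) < 0 := Real.cos_neg_of_pi_div_two_lt_of_lt h (by linarith)
      have h6 : 0 < sin (b + th) := Real.sin_pos_of_pos_of_lt_pi (by linarith) h3
      have h7 := mul_pos (mul_pos h1 h6) (mul_pos h2 c2)
      have h8 := mul_nonneg (mul_nonneg h4 (neg_nonneg.2 h5.le))
        (mul_nonneg (Real.cosh_pos lam).le s2.le)
      nlinarith
    · -- case 1
      exfalso
      obtain ⟨c, hc⟩ : ∃ c : ℝ, c = b + th - π := ⟨_, rfl⟩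
      have hc0 : 0 ≤ c := by linarith
      have hcth : c < th := by linarith
      have eb : b = π - (th - c) := by linarith
      have eb' : b + th = c + π := by linarith
      have r1 : reF lam th a b = reF lam th (-a) (th - c) := by
        unfold reF
        rw [eb, Real.sin_pi_sub, Real.cos_pi_sub, Real.cosh_neg, Real.sinh_neg]
        ring
      have r2 : reF lam th (a + lam) (b + th) = - reF lam th (a + lam) c := by
        unfold reF
        rw [eb', Real.sin_add_pi, Real.cos_add_pi]
        ring
      rw [r1] at hF
      rw [r2] at hF'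
      have e1 := (ref_iff (a := -a) hlam hth hth2 (by linarith : -(π / 2) < th - c)
        (by linarith)).1.1 hF
      have e2 := (ref_iff (a := a + lam) hlam hth hth2 (by linarith : -(π / 2) < c)
        (by linarith)).1.1 (by linarith)
      -- tan c + tan (th - c) <= tan th
      have hd : 0 < th - c := by linarith
      have tc0 : 0 ≤ tan c := Real.tan_nonneg_of_nonneg_of_le_pi_div_two hc0 (by linarith)
      have td0 : 0 < tan (th - c) := Real.tan_pos_of_pos_of_lt_pi_div_two hd (by linarith)
      have tdc : tan c + tan (th - c) ≤ tan th := by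
        rcases hc0.lt_or_eq with h4 | h4
        · have := tn_add h4 hd (by linarith)
          rw [show c + (th - c) = th by ring] at this
          exact this.le
        · rw [← h4]; simp
      have tdt : tan (th - c) ≤ tan th := by linarith
      rcases lt_trichotomy a 0 with ha | ha | ha
      · rcases lt_trichotomy (a + lam) 0 with ha' | ha' | ha'
        · have e4 : tanh lam < tanh (-a) := th_lt (by linarith)
          have e5 := mul_lt_mul_of_pos_right e4 Tt
          have e6 := mul_le_mul_of_nonneg_right tdt Tl.le
          nlinarith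
        · -- a = -lam
          have e7 : 0 < c := by
            rcases hc0.lt_or_eq with h4 | h4
            · exact h4
            · exfalso
              rcases hne with h5 | h5
              · exact h5 ha'
              · exact h5 (by linarith)
          have e8 := tn_add e7 hd (by linarith)
          rw [show c + (th - c) = th by ring] at e8
          have e9 : tan (th - c) < tan th := by
            have := Real.tan_pos_of_pos_of_lt_pi_div_two e7 (by linarith)
            linarith
          rw [show -a = lam by linarith] at e1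
          have := mul_lt_mul_of_pos_right e9 Tl
          nlinarith
        · have e4 := th_add_lt (x := -a) (y := a + lam) (by linarith) ha'
          rw [show -a + (a + lam) = lam by ring] at e4
          have e5 := mul_lt_mul_of_pos_right e4 Tt
          have e6 := mul_le_mul_of_nonneg_right tdc Tl.le
          nlinarith
      · -- a = 0 : then tanh lam * tan th <= tan c * tanh lam
        rw [ha, zero_add] at e2
        have e3 : tan c < tan th := by linarith
        have e4 := mul_lt_mul_of_pos_right e3 Tl
        nlinarith
      · have e4 : tanh lam < tanh (a + lam) := th_lt (by linarith)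
        have e5 := mul_lt_mul_of_pos_right e4 Tt
        have e3 : tan c < tan th := by linarith
        have e6 := mul_lt_mul_of_pos_right e3 Tl
        nlinarith

end Pool.Agent.M4F
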