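import Pool.Agent.helper49.M4.Spec

set_option autoImplicit false

namespace Pool.Agent.M4F

open Real

theorem sinh_sq_le {x y : ℝ} (h : |x| ≤ y) : sinh x ^ 2 ≤ sinh y ^ 2 := by
  have hy : 0 ≤ y := (abs_nonneg x).trans h
  have h1 : |sinh x| ≤ sinh y := by
    rw [Real.abs_sinh]
    exact Real.sinh_le_sinh.2 h
  rw [← sq_abs (sinh x)]
  exact pow_le_pow_left₀ (abs_nonneg _) h1 2

theorem NEA : NEA_stmt := by
  intro lam th a b m hlam hth hth2 hb hbp hpsi
  have hpi := Real.pi_pos
  obtain ⟨t, ht⟩ : ∃ t : ℝ, t = (π * (m + 1) - b) / th := ⟨_, rfl⟩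
  have htb : t * th = π * (m + 1) - b := by rw [ht]; field_simp
  have hm : (0 : ℝ) ≤ m := Nat.cast_nonneg m
  have hrd := abs_sub_round t
  rw [abs_le] at hrd
  -- the residual
  obtain ⟨r, hr⟩ : ∃ r : ℝ, r = b + (round t : ℝ) * th - π * (m + 1) := ⟨_, rfl⟩
  have hr1 : r = -(t - round t) * th := by rw [hr]; linarith [htb]
  have hr2 : |r| ≤ th / 2 := by
    rw [hr1, abs_mul, abs_neg, abs_of_pos hth]
    have : |t - round t| ≤ 1 / 2 := abs_sub_round t
    nlinarith
  have hr3 := abs_le.1 hr2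
  have hbth : π - th / 2 ≤ b + (round t : ℝ) * th := by
    have : π * 1 ≤ π * (m + 1) := mul_le_mul_of_nonneg_left (by linarith) hpi.le
    linarith [hr3.1]
  have hpos : (0 : ℝ) < round t := by
    by_contra hcon
    rw [not_lt] at hcon
    have : (round t : ℝ) * th ≤ 0 := mul_nonpos_of_nonpos_of_nonneg hcon hth.le
    linarith
  have hpos' : 0 < round t := by exact_mod_cast hpos
  obtain ⟨j, hj⟩ := Int.eq_ofNat_of_zero_le hpos'.le
  have hjr : (round t : ℝ) = (j : ℝ) := by rw [hj]; simp
  rw [hjr] at hbth hr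
  refine ⟨j, ?_, fun h35 => ?_, ?_, ?_⟩
  · have : 0 < (j : ℤ) := by rw [← hj]; exact hpos'
    omega
  · by_contra hcon
    have hj1 : (j : ℝ) ≤ 1 := by
      have : j ≤ 1 := by omega
      exact_mod_cast this
    have h1 : (j : ℝ) * th ≤ 1 * th := mul_le_mul_of_nonneg_right hj1 hth.le
    have h2 := Real.pi_gt_three
    linarith
  · have e : sin (b + j * th) = (-1) ^ (m + 1) * sin r := by
      have h1 : b + j * th = r + ((m + 1 : ℕ) : ℝ) * π := by rw [hr]; push_cast; ring
      rw [h1, Real.sin_add_nat_mul_pi]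
    have h2 : sin (b + j * th) ^ 2 = sin r ^ 2 := by
      rw [e, mul_pow, ← pow_mul, mul_comm (m + 1) 2, pow_mul]
      norm_num
    have h5 : sin r ^ 2 = sin |r| ^ 2 := by
      rcases abs_cases r with h | h
      · rw [h.1]
      · rw [h.1, Real.sin_neg, neg_sq]
    rw [h2, h5]
    have h3 : sin |r| ≤ sin (th / 2) := by
      apply Real.sin_le_sin_of_le_of_le_pi_div_two _ (by linarith) hr2
      linarith [abs_nonneg r]
    have h4 : 0 ≤ sin |r| := Real.sin_nonneg_of_nonneg_of_le_pi (abs_nonneg _) (by linarith)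
    exact pow_le_pow_left₀ h4 h3 2
  · apply sinh_sq_le
    have e : a + j * lam = -(b * lam / th - a - (m + 1) * (π * lam / th)) + (lam / th) * r := by
      rw [hr]; field_simp; ring
    rw [e]
    calc |-(b * lam / th - a - (m + 1) * (π * lam / th)) + (lam / th) * r|
        ≤ |-(b * lam / th - a - (m + 1) * (π * lam / th))| + |(lam / th) * r| := abs_add_le _ _
      _ ≤ |b * lam / th - a - (m + 1) * (π * lam / th)| + lam / 2 := by
        rw [abs_neg, abs_mul, abs_of_pos (show 0 < lam / th by positivity)]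
        have : lam / th * |r| ≤ lam / th * (th / 2) :=
          mul_le_mul_of_nonneg_left hr2 (by positivity)
        have e2 : lam / th * (th / 2) = lam / 2 := by field_simp
        linarith

end Pool.Agent.M4F
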