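import Pool.Agent.helper49.M4.Spec

set_option autoImplicit false

namespace Pool.Agent.M4F

open Real

theorem STR : STR_stmt := by
  rintro lam th a c ⟨hl, ht, ht1, ha, hc, hc1, hlens, hfail⟩
  have hsl : 0 < sinh lam := Real.sinh_pos_iff.2 hl
  have hsla : 0 < sinh (lam + a) := Real.sinh_pos_iff.2 (by linarith)
  have hst : 0 < sin th := Real.sin_pos_of_pos_of_lt_pi ht (by linarith [Real.pi_pos])
  have hca : 0 < cosh a := Real.cosh_pos a
  have e1 : sinh (lam + a) = sinh lam * cosh a + cosh lam * sinh a := Real.sinh_add lam a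
  have e2 : sin (th + c) = sin th * cos c + cos th * sin c := Real.sin_add th c
  -- `sinh lam cosh a sin (th + c) ≤ cos c sin th sinh (lam + a)`
  have h1 : sinh lam * cosh a * sin (th + c) ≤ cos c * sin th * sinh (lam + a) := by
    rw [e1, e2]
    nlinarith
  have h2 : sinh lam ^ 2 * cosh a * sinh (lam + a) < sin th ^ 2 * cos c * sinh (lam + a) := by
    calc sinh lam ^ 2 * cosh a * sinh (lam + a)
        = (sinh lam * sinh (lam + a)) * (sinh lam * cosh a) := by ring
      _ < (sin th * sin (th + c)) * (sinh lam * cosh a) :=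
          mul_lt_mul_of_pos_right hlens (mul_pos hsl hca)
      _ = sin th * (sinh lam * cosh a * sin (th + c)) := by ring
      _ ≤ sin th * (cos c * sin th * sinh (lam + a)) := mul_le_mul_of_nonneg_left h1 hst.le
      _ = sin th ^ 2 * cos c * sinh (lam + a) := by ring
  exact lt_of_mul_lt_mul_right h2 hsla.le

end Pool.Agent.M4F
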