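import Pool.Agent.helper66.M4F.FRM
import Pool.Agent.helper66.M4F.STR
import Pool.Agent.helper66.M4F.NEA

set_option autoImplicit false

namespace Pool.Agent.M4F

open Real

/-- `tanh x / x` is antitone. -/
theorem thx_anti : AntitoneOn (fun x : ℝ => sinh x / (x * cosh x)) (Set.Ioi 0) := by
  have hd : ∀ x : ℝ, 0 < x → HasDerivAt (fun x : ℝ => sinh x / (x * cosh x))
      ((cosh x * (x * cosh x) - sinh x * (1 * cosh x + x * sinh x)) / (x * cosh x) ^ 2) x := by
    intro x hx
    have h1 : HasDerivAt sinh (cosh x) x := Real.hasDerivAt_sinh x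
    have h2 : HasDerivAt (fun x : ℝ => x * cosh x) (1 * cosh x + x * sinh x) x :=
      (hasDerivAt_id' x).mul (Real.hasDerivAt_cosh x)
    exact h1.div h2 (mul_pos hx (Real.cosh_pos x)).ne'
  apply antitoneOn_of_deriv_nonpos (convex_Ioi 0)
  · intro x hx
    exact (hd x hx).continuousAt.continuousWithinAt
  · intro x hx
    rw [interior_Ioi] at hx
    exact (hd x hx).differentiableAt.differentiableWithinAt
  · intro x hx
    rw [interior_Ioi] at hx
    have hx0 : 0 < x := hx
    rw [(hd x hx).deriv]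
    apply div_nonpos_of_nonpos_of_nonneg _ (sq_nonneg _)
    have h1 := Real.cosh_sq x
    have h2 : x ≤ sinh x := Real.self_le_sinh_iff.2 hx0.le
    have h3 := Real.one_le_cosh x
    have h4 : x * 1 ≤ sinh x * cosh x := mul_le_mul h2 h3 zero_le_one (hx0.le.trans h2)
    nlinarith

/-- `tan x / x` is monotone. -/
theorem tnx_mono : MonotoneOn (fun x : ℝ => sin x / (x * cos x)) (Set.Ioo 0 (π / 2)) := by
  have hpi := Real.pi_pos
  have hd : ∀ x : ℝ, x ∈ Set.Ioo 0 (π / 2) → HasDerivAt (fun x : ℝ => sin x / (x * cos x))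
      ((cos x * (x * cos x) - sin x * (1 * cos x + x * (-sin x))) / (x * cos x) ^ 2) x := by
    intro x hx
    have h1 : HasDerivAt sin (cos x) x := Real.hasDerivAt_sin x
    have h2 : HasDerivAt (fun x : ℝ => x * cos x) (1 * cos x + x * (-sin x)) x :=
      (hasDerivAt_id' x).mul (Real.hasDerivAt_cos x)
    exact h1.div h2 (mul_pos hx.1 (Real.cos_pos_of_mem_Ioo ⟨by linarith [hx.1], hx.2⟩)).ne'
  apply monotoneOn_of_deriv_nonneg (convex_Ioo 0 (π / 2))
  · intro x hx
    exact (hd x hx).continuousAt.continuousWithinAt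
  · intro x hx
    rw [interior_Ioo] at hx
    exact (hd x hx).differentiableAt.differentiableWithinAt
  · intro x hx
    rw [interior_Ioo] at hx
    rw [(hd x hx).deriv]
    apply div_nonneg _ (sq_nonneg _)
    have h1 := Real.sin_sq_add_cos_sq x
    have h2 : sin x ≤ x := Real.sin_le hx.1.le
    have h3 := Real.cos_le_one x
    have h5 : 0 ≤ sin x := Real.sin_nonneg_of_nonneg_of_le_pi hx.1.le (by linarith [hx.2])
    have h6 : 0 ≤ cos x := Real.cos_nonneg_of_mem_Icc ⟨by linarith [hx.1], hx.2.le⟩
    have h4 : sin x * cos x ≤ x * 1 := mul_le_mul h2 h3 h6 hx.1.le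
    nlinarith

/-- Row LC3 (helper26's (ii)). -/
def LC3_stmt : Prop := ∀ lam th a c : ℝ, LF lam th a c → lam / 2 < a → a < c * lam / th →
  4 * rh lam th * (sinh (lam - a) ^ 2 + sin (th - c) ^ 2) < 1.69 * st lam th

theorem LC3 : LC3_stmt := by
  intro lam th a c h h1 h2
  obtain ⟨hl, ht, ht2, ha, hc, hc1, hlens, hfail⟩ := h
  have hpi := Real.pi_pos
  have hstr := STR lam th a c ⟨hl, ht, ht2, ha, hc, hc1, hlens, hfail⟩
  have s2 : 0 < sin th := Real.sin_pos_of_pos_of_lt_pi ht (by linarith)
  have c2 : 0 < cos th := Real.cos_pos_of_mem_Ioo ⟨by linarith, by linarith⟩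
  have cc : 0 < cos c := Real.cos_pos_of_mem_Ioo ⟨by linarith, by linarith⟩
  have sc : 0 < sin c := Real.sin_pos_of_pos_of_lt_pi hc (by linarith)
  have sl : 0 < sinh lam := Real.sinh_pos_iff.2 hl
  have sa : 0 < sinh a := Real.sinh_pos_iff.2 ha
  have cl := Real.cosh_pos lam
  have ca := Real.cosh_pos a
  have Tl := th_pos hl
  have Tt : 0 < tan th := Real.tan_pos_of_pos_of_lt_pi_div_two ht ht2
  -- fail in tanh/tan form
  have hf : tan c * tanh lam ≤ tanh a * tan th := by
    rw [Real.tan_eq_sin_div_cos, Real.tan_eq_sin_div_cos, Real.tanh_eq_sinh_div_cosh,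
      Real.tanh_eq_sinh_div_cosh, div_mul_div_comm, div_mul_div_comm,
      div_le_div_iff₀ (mul_pos cc cl) (mul_pos ca c2)]
    nlinarith
  have h3 : a * th < c * lam := by rwa [lt_div_iff₀ ht] at h2
  -- a < lam
  have hal : a < lam := by
    by_contra hcon
    push Not at hcon
    have hcth : th < c := by
      have : lam * th < c * lam := lt_of_le_of_lt (mul_le_mul_of_nonneg_right hcon ht.le) h3
      nlinarith
    have e1 := thx_anti (Set.mem_Ioi.2 hl) (Set.mem_Ioi.2 ha) hcon
    have e2 := tnx_mono (a := th) (b := c) ⟨ht, ht2⟩ ⟨hc, hc1⟩ hcth.le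
    simp only at e1 e2
    have e3 : sinh a / (a * cosh a) = tanh a / a := by
      rw [Real.tanh_eq_sinh_div_cosh]; field_simp
    have e4 : sinh lam / (lam * cosh lam) = tanh lam / lam := by
      rw [Real.tanh_eq_sinh_div_cosh]; field_simp
    have e5 : sin th / (th * cos th) = tan th / th := by
      rw [Real.tan_eq_sin_div_cos]; field_simp
    have e6 : sin c / (c * cos c) = tan c / c := by
      rw [Real.tan_eq_sin_div_cos]; field_simp
    rw [e3, e4, div_le_div_iff₀ ha hl] at e1
    rw [e5, e6, div_le_div_iff₀ ht hc] at e2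
    -- tanh a * lam <= tanh lam * a ; tan th * c <= tan c * th
    have e7 : 0 < tan th * tanh lam := mul_pos Tt Tl
    have f1 : tan th * c * tanh lam ≤ tan c * th * tanh lam :=
      mul_le_mul_of_nonneg_right e2 Tl.le
    have f2 : tan c * tanh lam * th ≤ tanh a * tan th * th := mul_le_mul_of_nonneg_right hf ht.le
    have f3 : tan th * c * tanh lam ≤ tanh a * tan th * th := by linarith
    have f4 : tan th * c * tanh lam * lam ≤ tanh a * tan th * th * lam :=
      mul_le_mul_of_nonneg_right f3 hl.le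
    have f5 : tanh a * lam * (tan th * th) ≤ tanh lam * a * (tan th * th) :=
      mul_le_mul_of_nonneg_right e1 (mul_pos Tt ht).le
    have f6 : (tan th * tanh lam) * (c * lam) ≤ (tan th * tanh lam) * (a * th) := by nlinarith
    have f7 := mul_lt_mul_of_pos_left h3 e7
    linarith
  have hcl : c < th := by
    by_contra hcon
    push Not at hcon
    have e1 : tanh a < tanh lam := th_lt hal
    have e2 : tan th ≤ tan c := by
      rcases hcon.lt_or_eq with h4 | h4
      · exact (Real.tan_lt_tan_of_nonneg_of_lt_pi_div_two ht.le hc1 h4).le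
      · rw [h4]
    have e3 := mul_lt_mul_of_pos_right e1 Tt
    have e4 := mul_le_mul_of_nonneg_right e2 Tl.le
    nlinarith
  have hc2 : th / 2 < c := by
    have : lam / 2 * th < c * lam := lt_trans (mul_lt_mul_of_pos_right h1 ht) h3
    nlinarith
  -- final estimate
  have g1 : sinh (lam - a) ^ 2 ≤ sinh (lam / 2) ^ 2 := by
    apply sinh_sq_le
    rw [abs_le]
    constructor <;> linarith
  have g2 : sin (th - c) ^ 2 ≤ sin (th / 2) ^ 2 := by
    apply pow_le_pow_left₀
    · exact Real.sin_nonneg_of_nonneg_of_le_pi (by linarith) (by linarith)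
    · exact Real.sin_le_sin_of_le_of_le_pi_div_two (by linarith) (by linarith) (by linarith)
  have g3 : sinh (lam / 2) ^ 2 + sin (th / 2) ^ 2 = (cosh lam - cos th) / 2 := by
    have e1 := Real.cosh_two_mul (lam / 2)
    have e2 := Real.cos_two_mul (th / 2)
    have e3 := Real.sin_sq_add_cos_sq (th / 2)
    have e4 := Real.cosh_sq (lam / 2)
    rw [show 2 * (lam / 2) = lam by ring] at e1
    rw [show 2 * (th / 2) = th by ring] at e2
    nlinarith
  have hu := Real.cosh_sq lam
  have hv := Real.sin_sq_add_cos_sq th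
  have hu1 := Real.one_le_cosh lam
  have hv1 := Real.cos_le_one th
  have hS : sinh lam ^ 2 < sin th ^ 2 := by
    have k1 : sinh lam ^ 2 * 1 ≤ sinh lam ^ 2 * cosh a :=
      mul_le_mul_of_nonneg_left (Real.one_le_cosh a) (sq_nonneg _)
    have k2 : sin th ^ 2 * cos c ≤ sin th ^ 2 * 1 :=
      mul_le_mul_of_nonneg_left (Real.cos_le_one c) (sq_nonneg _)
    linarith
  have hrh : rh lam th = cosh lam ^ 2 + cos th ^ 2 - 1 := by unfold rh; linarith
  have hst : st lam th = (cosh lam - cos th) * (cosh lam + cos th) := by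
    unfold st; nlinarith
  have hrh0 : 0 ≤ rh lam th := by unfold rh; positivity
  have hdiff : 0 < cosh lam - cos th := by
    have : 1 < cosh lam := Real.one_lt_cosh.2 hl.ne'
    linarith
  have g4 : 2 * rh lam th < 1.69 * (cosh lam + cos th) := by
    rw [hrh]
    rcases le_or_gt 1.2 (cosh lam + cos th) with k | k
    · nlinarith
    · nlinarith [mul_pos cl c2]
  calc 4 * rh lam th * (sinh (lam - a) ^ 2 + sin (th - c) ^ 2)
      ≤ 4 * rh lam th * (sinh (lam / 2) ^ 2 + sin (th / 2) ^ 2) := by
        apply mul_le_mul_of_nonneg_left (by linarith) (by linarith)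
    _ = (2 * rh lam th) * (cosh lam - cos th) := by rw [g3]; ring
    _ < (1.69 * (cosh lam + cos th)) * (cosh lam - cos th) := mul_lt_mul_of_pos_right g4 hdiff
    _ = 1.69 * st lam th := by rw [hst]; ring

end Pool.Agent.M4F
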