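import Pool.Agent.helper49.M4.Spec

set_option autoImplicit false

namespace Pool.Agent.M4F

open Real

theorem WST : WST_stmt := by
  intro lam th a b M m hlam hth hth2 ha hbig
  have hpi := Real.pi_pos
  -- the waist index
  have hex : ∃ j : ℕ, -(lam / 2) ≤ a + j * lam := by
    obtain ⟨j, hj⟩ := exists_nat_gt (-a / lam)
    refine ⟨j, ?_⟩
    rw [div_lt_iff₀ hlam] at hj
    linarith
  classical
  obtain ⟨j, hjd⟩ : ∃ j, j = Nat.find hex := ⟨_, rfl⟩
  have hj : -(lam / 2) ≤ a + j * lam := by rw [hjd]; exact Nat.find_spec hex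
  have hmj : m < j := by
    by_contra hcon
    rw [not_lt] at hcon
    have h1 : (j : ℝ) ≤ m := by exact_mod_cast hcon
    have h2 := mul_le_mul_of_nonneg_right h1 hlam.le
    linarith
  obtain ⟨i, hi⟩ : ∃ i : ℕ, j = i + 1 := ⟨j - 1, by omega⟩
  have hi1 : a + i * lam < -(lam / 2) := by
    by_contra hcon
    rw [not_lt] at hcon
    have := Nat.find_min' hex hcon
    rw [← hjd] at this
    omega
  have hjr : (j : ℝ) = i + 1 := by rw [hi]; push_cast; ring
  have hj2 : a + j * lam ≤ lam / 2 := by rw [hjr]; linarith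
  -- the three inequalities
  have g1 := hbig i (by omega)
  have g2 := hbig j (by omega)
  have g3 := hbig (j + 1) (by omega)
  obtain ⟨A, hA⟩ : ∃ A : ℝ, A = a + j * lam := ⟨_, rfl⟩
  obtain ⟨B, hB⟩ : ∃ B : ℝ, B = b + j * th := ⟨_, rfl⟩
  have eA1 : a + i * lam = A - lam := by rw [hA, hjr]; ring
  have eB1 : b + i * th = B - th := by rw [hB, hjr]; ring
  have eA3 : a + ((j + 1 : ℕ) : ℝ) * lam = A + lam := by rw [hA]; push_cast; ring
  have eB3 : b + ((j + 1 : ℕ) : ℝ) * th = B + th := by rw [hB]; push_cast; ring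
  rw [eA1, eB1] at g1
  rw [← hA, ← hB] at g2
  rw [eA3, eB3] at g3
  have hs : 0 < sin th := Real.sin_pos_of_pos_of_lt_pi (by linarith) (by linarith)
  obtain ⟨s, hsd⟩ : ∃ s : ℝ, s = sin th ^ 2 := ⟨_, rfl⟩
  have hs0 : 0 < s := by rw [hsd]; positivity
  have hs2 : 1 / 2 ≤ s := by
    rw [hsd]
    have h1 : cos (2 * th) ≤ 0 := by
      apply Real.cos_nonpos_of_pi_div_two_le_of_le <;> linarith
    rw [Real.cos_two_mul] at h1
    have := Real.sin_sq_add_cos_sq th
    linarith
  obtain ⟨w, hw⟩ : ∃ w : ℝ, w = 1 / (4 * s) := ⟨_, rfl⟩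
  have hw0 : 0 ≤ w := by rw [hw]; positivity
  have hws : 4 * s * w = 1 := by rw [hw]; field_simp
  have hw2 : 0 ≤ 1 - 2 * w := by
    have : w ≤ 1 / 2 := by rw [hw, div_le_iff₀ (by positivity)]; linarith
    linarith
  -- half angles
  have c2 : ∀ r : ℝ, sinh r ^ 2 = (cosh (2 * r) - 1) / 2 := by
    intro r
    rw [Real.cosh_two_mul, Real.cosh_sq]; ring
  have d2 : ∀ r : ℝ, sin r ^ 2 = (1 - cos (2 * r)) / 2 := by
    intro r
    rw [Real.cos_two_mul, Real.cos_sq']; ring
  have e1 : cosh (2 * (A - lam)) + cosh (2 * (A + lam)) =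
      2 * cosh (2 * A) * (1 + 2 * sinh lam ^ 2) := by
    rw [mul_sub, mul_add, Real.cosh_sub, Real.cosh_add, Real.cosh_two_mul lam, Real.cosh_sq lam]
    ring
  have e2 : cos (2 * (B - th)) + cos (2 * (B + th)) = 2 * cos (2 * B) * (1 - 2 * s) := by
    have : cos (2 * th) = 1 - 2 * s := by
      rw [hsd, Real.cos_two_mul, Real.cos_sq']; ring
    rw [mul_sub, mul_add, Real.cos_sub, Real.cos_add, this]
    ring
  have hst : st lam th = sinh lam ^ 2 + s := by rw [hsd]; rfl
  have hrh : 0 ≤ rh lam th := by unfold rh; positivity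
  have hS : 0 ≤ sinh lam ^ 2 := sq_nonneg _
  have hmean : M * st lam th ≤ 4 * rh lam th * (cosh (2 * A) * st lam th / (2 * s)) := by
    have h1 : M * st lam th ≤ w * (4 * rh lam th * (sinh (A - lam) ^ 2 + sin (B - th) ^ 2)) +
        (1 - 2 * w) * (4 * rh lam th * (sinh A ^ 2 + sin B ^ 2)) +
        w * (4 * rh lam th * (sinh (A + lam) ^ 2 + sin (B + th) ^ 2)) := by
      have k1 := mul_le_mul_of_nonneg_left g1 hw0
      have k2 := mul_le_mul_of_nonneg_left g2 hw2
      have k3 := mul_le_mul_of_nonneg_left g3 hw0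
      have e : M * st lam th = w * (M * st lam th) + (1 - 2 * w) * (M * st lam th) +
        w * (M * st lam th) := by ring
      rw [e]
      linarith
    refine h1.trans (le_of_eq ?_)
    rw [c2 (A - lam), c2 A, c2 (A + lam), d2 (B - th), d2 B, d2 (B + th), hst]
    have e3 : w = 1 / (4 * s) := hw
    have e4 : w * (4 * rh lam th * ((cosh (2 * (A - lam)) - 1) / 2 + (1 - cos (2 * (B - th))) / 2)) +
        (1 - 2 * w) * (4 * rh lam th * ((cosh (2 * A) - 1) / 2 + (1 - cos (2 * B)) / 2)) +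
        w * (4 * rh lam th * ((cosh (2 * (A + lam)) - 1) / 2 + (1 - cos (2 * (B + th))) / 2)) =
        2 * rh lam th * (w * (cosh (2 * (A - lam)) + cosh (2 * (A + lam))) +
          (1 - 2 * w) * cosh (2 * A) - (w * (cos (2 * (B - th)) + cos (2 * (B + th))) +
          (1 - 2 * w) * cos (2 * B))) := by ring
    rw [e4, e1, e2, e3]
    field_simp
    ring
  have hch : cosh (2 * A) ≤ cosh lam := by
    rw [Real.cosh_le_cosh, abs_mul, abs_two, abs_of_pos hlam]
    have : |A| ≤ lam / 2 := abs_le.2 ⟨by rw [hA]; exact hj, by rw [hA]; exact hj2⟩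
    linarith
  have hstp : 0 < st lam th := by rw [hst]; positivity
  have h3 : M * st lam th * s ≤ 2 * rh lam th * cosh (2 * A) * st lam th := by
    calc M * st lam th * s ≤ 4 * rh lam th * (cosh (2 * A) * st lam th / (2 * s)) * s :=
          mul_le_mul_of_nonneg_right hmean hs0.le
      _ = _ := by field_simp; ring
  have h4 : (M * s) * st lam th ≤ (2 * rh lam th * cosh lam) * st lam th := by
    calc (M * s) * st lam th = M * st lam th * s := by ring
      _ ≤ 2 * rh lam th * cosh (2 * A) * st lam th := h3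
      _ ≤ 2 * rh lam th * cosh lam * st lam th := by
        apply mul_le_mul_of_nonneg_right _ hstp.le
        exact mul_le_mul_of_nonneg_left hch (by positivity)
  rw [← hsd]
  exact le_of_mul_le_mul_right h4 hstp

end Pool.Agent.M4F
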